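import Pool.Agent.X193.REC.Extend

/-!
Reconstruction passes from a closed oligomorphic permutation group to its closure in the monoid
of all self-maps.
-/

namespace Pool.Agent.Results.MP_f30308_lc.ClosuresReconstruct

open Pool.Agent.X193.REC FirstOrder

/-- The automorphism group of the structure `X`, as a permutation group on `X`. -/
def autG (L : FirstOrder.Language.{0, 0}) (X : Type) [L.Structure X] :
    Subgroup (Equiv.Perm X) where
  carrier := {σ | ∃ e : X ≃[L] X, ∀ x, e x = σ x}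
  one_mem' := ⟨FirstOrder.Language.Equiv.refl L X, fun _ => rfl⟩
  mul_mem' := by
    rintro σ τ ⟨e, he⟩ ⟨f, hf⟩
    refine ⟨e.comp f, fun x => ?_⟩
    rw [FirstOrder.Language.Equiv.comp_apply, hf, he]
    rfl
  inv_mem' := by
    rintro σ ⟨e, he⟩
    refine ⟨e.symm, fun x => ?_⟩
    apply e.injective
    rw [FirstOrder.Language.Equiv.apply_symm_apply, he]
    exact (σ.apply_symm_apply x).symm

/-- The monoid of all endomorphisms (homomorphisms to itself) of the structure `X`. -/
def endM (L : FirstOrder.Language.{0, 0}) (X : Type) [L.Structure X] :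
    Submonoid (Function.End X) where
  carrier := {f | ∃ h : X →[L] X, ∀ x, h x = fn f x}
  one_mem' := ⟨FirstOrder.Language.Hom.id L X, fun _ => rfl⟩
  mul_mem' := by
    rintro f g ⟨h, hh⟩ ⟨k, hk⟩
    refine ⟨h.comp k, fun x => ?_⟩
    rw [FirstOrder.Language.Hom.comp_apply, hk, hh]
    rfl

/-- A permutation group on `ℕ` has reconstruction: every automorphism group of a countable
omega-categorical structure which is isomorphic to it is topologically isomorphic to it. -/
def GroupReconstruction (G : Subgroup (Equiv.Perm ℕ)) : Prop :=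
  ∀ (X : Type) [Countable X] (L : FirstOrder.Language.{0, 0}) [L.Structure X],
    Oligomorphic (autG L X) → Nonempty (G ≃* autG L X) →
      TopIso (fun g : G => ((g : Equiv.Perm ℕ) : ℕ → ℕ))
        (fun g : autG L X => ((g : Equiv.Perm X) : X → X))

/-- A monoid of self-maps of `ℕ` has reconstruction: every endomorphism monoid of a countable
omega-categorical structure which is isomorphic to it is topologically isomorphic to it. -/
def MonoidReconstruction (M : Submonoid (Function.End ℕ)) : Prop :=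
  ∀ (X : Type) [Countable X] (L : FirstOrder.Language.{0, 0}) [L.Structure X],
    Oligomorphic (autG L X) → Nonempty (M ≃* endM L X) →
      TopIso (fun f : M => fn f.1) (fun f : endM L X => fn f.1)

section

variable (L : FirstOrder.Language.{0, 0}) (X : Type) [L.Structure X]

/-- The set of all endomorphisms. -/
def NN : Set (X → X) := {f | ∃ h : X →[L] X, ∀ x, h x = f x}

theorem mem_NN (f : Function.End X) : f ∈ endM L X ↔ fn f ∈ NN L X := Iff.rfl

theorem NN_id : (id : X → X) ∈ NN L X := (endM L X).one_mem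

theorem NN_comp : ∀ f ∈ NN L X, ∀ g ∈ NN L X, f ∘ g ∈ NN L X := fun _ hf _ hg =>
  (endM L X).mul_mem hf hg

theorem NN_closed : ∀ f : X → X, (∀ s : Finset X, ∃ h ∈ NN L X, ∀ x ∈ s, h x = f x) →
    f ∈ NN L X := by
  classical
  intro f hf
  refine ⟨⟨f, ?_, ?_⟩, fun _ => rfl⟩
  · intro n F x
    obtain ⟨g, ⟨h, hh⟩, hg⟩ := hf ({FirstOrder.Language.Structure.funMap F x} ∪
      Finset.univ.image x)
    have h1 : h (FirstOrder.Language.Structure.funMap F x) =
        f (FirstOrder.Language.Structure.funMap F x) := by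
      rw [hh, hg _ (Finset.mem_union_left _ (Finset.mem_singleton_self _))]
    have h2 : (h : X → X) ∘ x = f ∘ x := by
      funext i
      change h (x i) = f (x i)
      rw [hh, hg _ (Finset.mem_union_right _ (Finset.mem_image_of_mem _ (Finset.mem_univ i)))]
    rw [← h1, ← h2]
    exact h.map_fun F x
  · intro n r x hr
    obtain ⟨g, ⟨h, hh⟩, hg⟩ := hf (Finset.univ.image x)
    have h2 : (h : X → X) ∘ x = f ∘ x := by
      funext i
      change h (x i) = f (x i)
      rw [hh, hg _ (Finset.mem_image_of_mem _ (Finset.mem_univ i))]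
    rw [← h2]
    exact h.map_rel r x hr

theorem autG_iff (σ : Equiv.Perm X) : σ ∈ autG L X ↔
    (σ : X → X) ∈ NN L X ∧ ((σ⁻¹ : Equiv.Perm X) : X → X) ∈ NN L X := by
  constructor
  · intro hσ
    have hσ' := (autG L X).inv_mem hσ
    obtain ⟨e, he⟩ := hσ
    obtain ⟨e', he'⟩ := hσ'
    exact ⟨⟨e.toHom, he⟩, ⟨e'.toHom, he'⟩⟩
  · rintro ⟨⟨h, hh⟩, ⟨k, hk⟩⟩
    have hh' : (h : X → X) = σ := funext hh
    have hk' : (k : X → X) = (σ⁻¹ : Equiv.Perm X) := funext hk
    refine ⟨⟨σ, ?_, ?_⟩, fun _ => rfl⟩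
    · intro n F x
      have h1 := h.map_fun F x
      rw [hh'] at h1
      exact h1
    · intro n r x
      constructor
      · intro hr
        have h1 := k.map_rel r _ hr
        rw [hk'] at h1
        have h2 : ((σ⁻¹ : Equiv.Perm X) : X → X) ∘ (σ ∘ x) = x := by
          funext i
          exact σ.symm_apply_apply (x i)
        rwa [show ((σ⁻¹ : Equiv.Perm X) : X → X) ∘ ((σ : Equiv X X).toFun ∘ x) = x from h2] at h1
      · intro hr
        have h1 := h.map_rel r x hr
        rw [hh'] at h1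
        exact h1

end

/-- If the closure of an oligomorphic group is isomorphic to the endomorphism monoid of an
omega-categorical structure, then this monoid is the closure of the automorphism group. -/
theorem dense_units {G : Subgroup (Equiv.Perm ℕ)} (hG : Oligomorphic G) (X : Type) [Countable X]
    (L : FirstOrder.Language.{0, 0}) [L.Structure X] (hX : Oligomorphic (autG L X))
    (φ : clM G ≃* endM L X) : endM L X = clM (autG L X) := by
  have hval : ∀ {f g : clM G}, φ f = φ g → fn f.1 = fn g.1 := fun h =>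
    congrArg (fun z : clM G => fn z.1) (φ.injective h)
  have hdir : ∀ F : ℕ → X → X, (∀ i, F i ∈ NN L X) →
      ∃ (H : ℕ → X → X) (K : X → X), (∀ i, H i ∈ NN L X) ∧ K ∈ NN L X ∧
        ∀ i, H i ∘ F i = K := by
    intro F hF
    let F' : ℕ → endM L X := fun i => ⟨(F i : Function.End X), hF i⟩
    obtain ⟨h, g, hh, hg, hhg⟩ := directed hG (fun i => fn (φ.symm (F' i)).1)
      (fun i => (mem_clM _).1 (φ.symm (F' i)).2)
    let h' : ℕ → clM G := fun i => ⟨(h i : Function.End ℕ), (mem_clM _).2 (hh i)⟩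
    let g' : clM G := ⟨(g : Function.End ℕ), (mem_clM _).2 hg⟩
    refine ⟨fun i => fn (φ (h' i)).1, fn (φ g').1, fun i => (φ (h' i)).2, (φ g').2,
      fun i => ?_⟩
    have h1 : h' i * φ.symm (F' i) = g' := Subtype.ext (hhg i)
    have h2 : φ (h' i) * F' i = φ g' := by
      rw [← h1, map_mul, MulEquiv.apply_symm_apply]
    exact congrArg (fun z : endM L X => fn z.1) h2
  have hch : ∀ g ∈ NN L X, ∃ c : ℕ → X → X, (∀ n, c n ∈ NN L X) ∧
      (∀ n, c (n + 1) ∘ g = c n) ∧
      ∀ h ∈ NN L X, ∀ h' ∈ NN L X, (∀ n, h ∘ c n = h' ∘ c n) → h = h' := by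
    intro g hg
    let g' : endM L X := ⟨(g : Function.End X), hg⟩
    obtain ⟨c, hc, hcg, hcs⟩ := chain (G := G) (fn (φ.symm g').1)
      ((mem_clM _).1 (φ.symm g').2)
    let c' : ℕ → clM G := fun i => ⟨(c i : Function.End ℕ), (mem_clM _).2 (hc i)⟩
    refine ⟨fun n => fn (φ (c' n)).1, fun n => (φ (c' n)).2, fun n => ?_, ?_⟩
    · have h1 : c' (n + 1) * φ.symm g' = c' n := Subtype.ext (hcg n)
      have h2 : φ (c' (n + 1)) * g' = φ (c' n) := by
        rw [← h1, map_mul, MulEquiv.apply_symm_apply]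
      exact congrArg (fun z : endM L X => fn z.1) h2
    · intro h hh k hk hn
      let h' : endM L X := ⟨(h : Function.End X), hh⟩
      let k' : endM L X := ⟨(k : Function.End X), hk⟩
      have h1 : ∀ n, φ.symm h' * c' n = φ.symm k' * c' n := by
        intro n
        apply φ.injective
        rw [map_mul, map_mul, MulEquiv.apply_symm_apply, MulEquiv.apply_symm_apply]
        exact Subtype.ext (hn n)
      have h2 : φ.symm h' = φ.symm k' := by
        apply Subtype.ext
        apply fn_inj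
        funext y
        obtain ⟨n, x, rfl⟩ := hcs y
        exact congrFun (congrArg (fun z : clM G => fn z.1) (h1 n)) x
      have h3 : h' = k' := φ.symm.injective h2
      exact congrArg (fun z : endM L X => fn z.1) h3
  ext f
  rw [mem_clM, mem_NN]
  constructor
  · intro hf
    exact density (NN_id L X) (NN_comp L X) (NN_closed L X) (autG_iff L X) hX hdir hch hf
  · intro hf
    apply NN_closed
    intro s
    obtain ⟨σ, hσ, h⟩ := hf s
    exact ⟨σ, ((autG_iff L X σ).1 hσ).1, h⟩

/-- Units of the closure. -/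
theorem units_iso {G : Subgroup (Equiv.Perm ℕ)}
    (hcl : @IsClosed (Equiv.Perm ℕ) (pwOn fun σ => (σ : ℕ → ℕ)) (G : Set (Equiv.Perm ℕ)))
    {X : Type} {H : Subgroup (Equiv.Perm X)} {N : Submonoid (Function.End X)}
    (hH : ∀ σ : Equiv.Perm X, σ ∈ H ↔ (∃ f ∈ N, fn f = σ) ∧
      (∃ f ∈ N, fn f = (σ⁻¹ : Equiv.Perm X)))
    (φ : clM G ≃* N) : Nonempty (G ≃* H) := by
  -- permutations in the closure belong to `G`
  have hmem : ∀ σ : Equiv.Perm ℕ, InCl G σ → σ ∈ G := by
    intro σ hσ
    have h1 : σ ∈ @closure (Equiv.Perm ℕ) (pwOn fun σ => (σ : ℕ → ℕ)) (G : Set _) := by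
      rw [@mem_closure_iff_nhds _ (pwOn fun σ : Equiv.Perm ℕ => (σ : ℕ → ℕ))]
      intro W hW
      obtain ⟨s, hs⟩ := (mem_nhds_pwOn _ _ _).1 hW
      obtain ⟨τ, hτ, h⟩ := hσ s
      exact ⟨τ, hs τ h, hτ⟩
    have h2 : @closure (Equiv.Perm ℕ) (pwOn fun σ => (σ : ℕ → ℕ)) (G : Set _) = G :=
      @IsClosed.closure_eq _ (pwOn fun σ : Equiv.Perm ℕ => (σ : ℕ → ℕ)) _ hcl
    rw [h2] at h1
    exact h1
  let a : G → clM G := fun g =>
    ⟨(((g : Equiv.Perm ℕ) : ℕ → ℕ) : Function.End ℕ), (mem_clM _).2 (InCl.of_mem g.2)⟩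
  have ha1 : a 1 = 1 := rfl
  have hamul : ∀ g h, a (g * h) = a g * a h := fun g h => rfl
  have hainj : ∀ {g h}, a g = a h → g = h := by
    intro g h hgh
    apply Subtype.ext
    apply Equiv.ext
    intro x
    exact congrFun (congrArg (fun z : clM G => fn z.1) hgh) x
  -- the image of a unit
  have hu : ∀ g : G, ∃ σ : H, fn (φ (a g)).1 = (σ : Equiv.Perm X) := by
    intro g
    have e1 : φ (a g) * φ (a g⁻¹) = 1 := by
      rw [← map_mul, ← hamul, mul_inv_cancel, ha1, map_one]
    have e2 : φ (a g⁻¹) * φ (a g) = 1 := by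
      rw [← map_mul, ← hamul, inv_mul_cancel, ha1, map_one]
    have e1' : fn (φ (a g)).1 ∘ fn (φ (a g⁻¹)).1 = id :=
      congrArg (fun z : N => fn z.1) e1
    have e2' : fn (φ (a g⁻¹)).1 ∘ fn (φ (a g)).1 = id :=
      congrArg (fun z : N => fn z.1) e2
    let σ : Equiv.Perm X :=
      ⟨fn (φ (a g)).1, fn (φ (a g⁻¹)).1, congrFun e2', congrFun e1'⟩
    have hσ : σ ∈ H := (hH σ).2 ⟨⟨_, (φ (a g)).2, rfl⟩, ⟨_, (φ (a g⁻¹)).2, rfl⟩⟩
    exact ⟨⟨σ, hσ⟩, rfl⟩
  choose ψ hψ using hu
  have hψmul : ∀ g h, ψ (g * h) = ψ g * ψ h := by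
    intro g h
    apply Subtype.ext
    apply Equiv.ext
    intro x
    have h1 : fn (φ (a (g * h))).1 = fn (φ (a g)).1 ∘ fn (φ (a h)).1 := by
      rw [hamul, map_mul]
      rfl
    rw [hψ, hψ, hψ] at h1
    exact congrFun h1 x
  have hψinj : Function.Injective ψ := by
    intro g h hgh
    apply hainj
    apply φ.injective
    apply Subtype.ext
    apply fn_inj
    rw [hψ, hψ, hgh]
  have hψsur : Function.Surjective ψ := by
    intro σ
    obtain ⟨⟨f, hf, hfσ⟩, ⟨k, hk, hkσ⟩⟩ := (hH σ).1 σ.2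
    let f' : N := ⟨f, hf⟩
    let k' : N := ⟨k, hk⟩
    have e1 : f' * k' = 1 := by
      apply Subtype.ext
      apply fn_inj
      change fn f ∘ fn k = id
      rw [hfσ, hkσ]
      funext x
      exact (σ : Equiv.Perm X).apply_symm_apply x
    have e2 : k' * f' = 1 := by
      apply Subtype.ext
      apply fn_inj
      change fn k ∘ fn f = id
      rw [hfσ, hkσ]
      funext x
      exact (σ : Equiv.Perm X).symm_apply_apply x
    have e1' : φ.symm f' * φ.symm k' = 1 := by rw [← map_mul, e1, map_one]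
    have e2' : φ.symm k' * φ.symm f' = 1 := by rw [← map_mul, e2, map_one]
    let τ : Equiv.Perm ℕ :=
      ⟨fn (φ.symm f').1, fn (φ.symm k').1,
        congrFun (congrArg (fun z : clM G => fn z.1) e2'),
        congrFun (congrArg (fun z : clM G => fn z.1) e1')⟩
    have hτ : τ ∈ G := hmem τ ((mem_clM _).1 (φ.symm f').2)
    refine ⟨⟨τ, hτ⟩, ?_⟩
    have h1 : a ⟨τ, hτ⟩ = φ.symm f' := rfl
    have h2 := hψ ⟨τ, hτ⟩
    rw [h1, MulEquiv.apply_symm_apply] at h2
    apply Subtype.ext
    apply Equiv.ext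
    intro x
    rw [← congrFun h2 x]
    exact congrFun hfσ x
  exact ⟨MulEquiv.ofBijective (MonoidHom.mk' ψ hψmul) ⟨hψinj, hψsur⟩⟩

/-- **Reconstruction of closures.** -/
theorem result :
    (∀ G : Subgroup (Equiv.Perm ℕ),
      @IsClosed (Equiv.Perm ℕ) (pwOn fun σ => (σ : ℕ → ℕ)) (G : Set (Equiv.Perm ℕ)) →
      Oligomorphic G → GroupReconstruction G → MonoidReconstruction (clM G)) ∧
    (∀ G : Subgroup (Equiv.Perm ℕ), Oligomorphic G →
      ∀ (X : Type) [Countable X] (L : FirstOrder.Language.{0, 0}) [L.Structure X],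
        Oligomorphic (autG L X) → Nonempty (clM G ≃* endM L X) →
          endM L X = clM (autG L X)) := by
  refine ⟨?_, ?_⟩
  · intro G hcl hG hrec X _ L _ hX hφ
    obtain ⟨φ⟩ := hφ
    have hN := dense_units hG X L hX φ
    have hiso : Nonempty (G ≃* autG L X) := by
      refine units_iso hcl (N := endM L X) ?_ φ
      intro σ
      rw [autG_iff]
      constructor
      · rintro ⟨h1, h2⟩
        exact ⟨⟨_, h1, rfl⟩, ⟨_, h2, rfl⟩⟩
      · rintro ⟨⟨f, hf, hfσ⟩, ⟨k, hk, hkσ⟩⟩
        rw [mem_NN, hfσ] at hf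
        rw [mem_NN, hkσ] at hk
        exact ⟨hf, hk⟩
    obtain ⟨e, he1, he2⟩ := hrec X L hX hiso
    have h3 := extend e he1 he2
    rw [hN]
    exact h3
  · intro G hG X _ L _ hX hφ
    obtain ⟨φ⟩ := hφ
    exact dense_units hG X L hX φ

end Pool.Agent.Results.MP_f30308_lc.ClosuresReconstruct
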